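import Pool.Agent.W622.ETG.Stm

set_option autoImplicit false

namespace Pool.Agent.W125.ELG

open Pool.Agent.W622.ETG Module

section
variable {V : Type} [AddCommGroup V] [Module (ZMod 2) V] [Finite V]

lemma finrank_le_two {Y : DSub V} {p g : Dl V} (h : Y ≤ Submodule.span (ZMod 2) {p, g}) :
    finrank (ZMod 2) Y ≤ 2 := by
  refine (Submodule.finrank_mono h).trans ?_
  classical
  have h1 : finrank (ZMod 2) (Submodule.span (ZMod 2) (({p, g} : Finset (Dl V)) : Set (Dl V))) ≤
      ({p, g} : Finset (Dl V)).card := finrank_span_finset_le_card _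
  have h2 : ({p, g} : Finset (Dl V)).card ≤ 2 := Finset.card_le_two
  have h3 : (({p, g} : Finset (Dl V)) : Set (Dl V)) = {p, g} := by simp
  rw [h3] at h1
  omega

/-- a cone is not inside the support of a primitive form -/
lemma cone_not_le {e : V} {A : Fam V} {Y : DSub V} {ω : Frm V} (hY : IsCone e A Y)
    (hω : Prim A ω) : ¬ Y ≤ sp ω := by
  intro hle
  obtain ⟨p, h3, hpY, hp0, hpe, hg⟩ := hY
  obtain ⟨hωA, hω0, hpr⟩ := hω
  by_cases hex : ∃ g ∈ Y, wd e p g = ω
  · obtain ⟨g, hgY, hgω⟩ := hex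
    have h4 : sp ω ≤ Submodule.span (ZMod 2) {p, g} := by
      rw [← hgω]
      exact sp_wd_le p g
    have := finrank_le_two (hle.trans h4)
    omega
  · push Not at hex
    have hz : ∀ g ∈ Y, wd e p g = 0 := by
      intro g hgY
      have h5 : sp (wd e p g) ≤ Y := by
        refine (sp_wd_le p g).trans ?_
        rw [Submodule.span_le]
        intro x hx
        rcases hx with rfl | rfl
        · exact hpY
        · exact hgY
      rcases hpr (wd e p g) (hg g hgY) (h5.trans hle) with h | h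
      · exact h
      · exact absurd h (hex g hgY)
    have hpa : ∃ a : V, p a = 1 := by
      by_contra hc
      push Not at hc
      exact hp0 (LinearMap.ext fun a => z_ne' (hc a))
    obtain ⟨a, ha⟩ := hpa
    have h6 : Y ≤ Submodule.span (ZMod 2) {p, p} := by
      intro g hgY
      have h7 := hz g hgY
      have h8 : wd e p g a = 0 := by rw [h7]; rfl
      rw [wd_val_one' ha] at h8
      have h9 : g = (g a + g e) • p := add_eq_zero'.mp h8
      rw [h9]
      exact Submodule.smul_mem _ _ (Submodule.subset_span (by simp))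
    have := finrank_le_two h6
    omega

end

theorem t_BDIS (hBNT : S_BNT) (hBLK : S_BLK) (hSTAR : S_STAR) (hNF : S_NF) : S_BDIS := by
  intro V _ _ _ e A X Y hM hX hY hne
  obtain ⟨hXB, hXG⟩ := hX
  obtain ⟨hYt, hY0⟩ := hBNT V e A Y hM hY
  obtain ⟨b, hb, hYb⟩ := exists_ann hYt
  obtain ⟨-, s, hs⟩ := hNF V e _ (hM.el (ann b) (ann_ne_top hb))
  have hYs : Y ∈ s := hBLK V e A Y (ann b) s hM.ef hY hYb hs
  rcases (hSTAR V e A X b s hM ⟨hXB, hXG⟩ hb hs).1 Y hYs with hle | hd
  · exfalso
    rcases hXB with hXc | ⟨ω, hω, hXω, hXn⟩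
    · rcases hY with hYc | ⟨η, hη, hYη, hYn⟩
      · exact hne (hYc.2 X hXc.1 hle)
      · exact hYn X hXc.1 hle
    · rcases hY with hYc | ⟨η, hη, hYη, hYn⟩
      · exact cone_not_le hYc.1 hω (hXω ▸ hle)
      · rcases hω.2.2 η hη.1 (by rw [← hYη, ← hXω]; exact hle) with h | h
        · exact hη.2.1 h
        · apply hne
          rw [hXω, hYη, h]
  · exact hd.symm

end Pool.Agent.W125.ELG
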